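import Pool.Agent.R326.TA.Main

/-!
# MP_284f77_nt, Q1: 2-adic integrality of a sequence defined by a hypergeometric quotient
-/

set_option autoImplicit false

namespace Pool.Agent.Results.MP_284f77_nt.TwoAdicIntegrality

open Finset

/-- `Π₁(N) = ∏_{j=1}^{N} (4 j - 1)²` -/
def Pi1 (N : ℕ) : ℤ := ∏ j ∈ Finset.Icc 1 N, (4 * (j : ℤ) - 1) ^ 2

/-- `Π₃(N) = ∏_{j=1}^{N} (4 j - 3)²` -/
def Pi3 (N : ℕ) : ℤ := ∏ j ∈ Finset.Icc 1 N, (4 * (j : ℤ) - 3) ^ 2

/-- the integers `u(n)`: `u(0) = 1` and, for `n ≥ 1`,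
`u(n) = Π₁(n) - ∑_{m=0}^{n-1} binom(2n+1, 2m+1) Π₃(n-m) u(m)` -/
def u (n : ℕ) : ℤ :=
  if n = 0 then 1
  else Pi1 n - ∑ m : Fin n, ((2 * n + 1).choose (2 * (m : ℕ) + 1) : ℤ) * Pi3 (n - m) * u m
termination_by n
decreasing_by exact m.2

lemma Pi1_eq (N : ℕ) : Pi1 N = Pool.Agent.R326.TA.Pi1 N := by
  induction N with
  | zero => simp [Pi1, Pool.Agent.R326.TA.Pi1]
  | succ N ih =>
    rw [Pi1, Pool.Agent.R326.TA.Pi1] at ih ⊢
    rw [Finset.prod_Icc_succ_top (by omega), prod_range_succ, ih]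
    push_cast
    ring

lemma Pi3_eq (N : ℕ) : Pi3 N = Pool.Agent.R326.TA.Pi3 N := by
  induction N with
  | zero => simp [Pi3, Pool.Agent.R326.TA.Pi3]
  | succ N ih =>
    rw [Pi3, Pool.Agent.R326.TA.Pi3] at ih ⊢
    rw [Finset.prod_Icc_succ_top (by omega), prod_range_succ, ih]
    push_cast
    ring

/-- For every `n ≥ 0` the rational number `u(n) / (2 n + 1)!` has odd denominator, that is, it lies
in `ℤ₂`. -/
theorem result (n : ℕ) : Odd ((u n : ℚ) / ((2 * n + 1).factorial : ℚ)).den := by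
  let U : PowerSeries ℚ := PowerSeries.mk fun n => (u n : ℚ) / ((2 * n + 1).factorial : ℚ)
  have hU : U * Pool.Agent.R326.TA.f = Pool.Agent.R326.TA.g := by
    ext n
    rw [PowerSeries.coeff_mul, Finset.Nat.sum_antidiagonal_eq_sum_range_succ_mk]
    simp only [U, Pool.Agent.R326.TA.f, Pool.Agent.R326.TA.g, PowerSeries.coeff_mk,
      Pool.Agent.R326.TA.fc, Pool.Agent.R326.TA.gc]
    have h1 : ∀ m ∈ range (n + 1), (u m : ℚ) / ((2 * m + 1).factorial : ℚ) *
        ((Pool.Agent.R326.TA.Pi3 (n - m) : ℚ) / ((2 * (n - m)).factorial : ℚ)) =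
        (((2 * n + 1).choose (2 * m + 1) : ℚ) * (Pi3 (n - m) : ℚ) * (u m : ℚ)) /
          ((2 * n + 1).factorial : ℚ) := by
      intro m hm
      have hm' := mem_range.1 hm
      have h2 : (2 * n + 1).choose (2 * m + 1) * (2 * m + 1).factorial * (2 * (n - m)).factorial =
          (2 * n + 1).factorial := by
        have := Nat.choose_mul_factorial_mul_factorial (show 2 * m + 1 ≤ 2 * n + 1 by omega)
        rwa [show 2 * n + 1 - (2 * m + 1) = 2 * (n - m) by omega] at this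
      have h3 : ((2 * n + 1).choose (2 * m + 1) : ℚ) * ((2 * m + 1).factorial : ℚ) *
          ((2 * (n - m)).factorial : ℚ) = ((2 * n + 1).factorial : ℚ) := by exact_mod_cast h2
      have h4 : ((2 * m + 1).factorial : ℚ) ≠ 0 := by positivity
      have h5 : ((2 * (n - m)).factorial : ℚ) ≠ 0 := by positivity
      have h6 : ((2 * n + 1).factorial : ℚ) ≠ 0 := by positivity
      rw [Pi3_eq]
      rw [div_mul_div_comm, div_eq_div_iff (mul_ne_zero h4 h5) h6, ← h3]
      ring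
    rw [sum_congr rfl h1, ← sum_div]
    congr 1
    rw [sum_range_succ, Nat.choose_self, Nat.sub_self]
    have h7 : (Pi3 0 : ℚ) = 1 := by simp [Pi3]
    rw [h7, Nat.cast_one, one_mul, one_mul, ← Pi1_eq]
    by_cases hn : n = 0
    · subst hn
      rw [u]
      simp [Pi1]
    · have h8 : u n = Pi1 n - ∑ m ∈ range n,
          ((2 * n + 1).choose (2 * m + 1) : ℤ) * Pi3 (n - m) * u m := by
        rw [u, if_neg hn, ← Fin.sum_univ_eq_sum_range
          (fun m => ((2 * n + 1).choose (2 * m + 1) : ℤ) * Pi3 (n - m) * u m) n]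
      rw [h8]
      push_cast
      ring
  have h := Pool.Agent.R326.TA.quotient_mem hU n
  simp only [U, PowerSeries.coeff_mk] at h
  exact Pool.Agent.R326.TA.odd_den h

end Pool.Agent.Results.MP_284f77_nt.TwoAdicIntegrality
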